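import Pool.Agent.W353.EF.Defs

/-!
# The order at the edge, as a limit along the real axis

The order of vanishing of `L(H^i, s)` at `s = i/2 + 1` in the sense of the problem: no continuation is
assumed.
-/

set_option autoImplicit false

namespace Pool.Agent.Y149.Ord

open NumberField IsDedekindDomain Filter Topology Polynomial
open Pool.Agent.W353.EF (LFun size)

/-- The order of `L(s)` (Euler factors `B v`) at `s = i/2 + 1` exists and is `k`: the function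
`(s - i/2 - 1)^{-k} L(s)` has a finite nonzero limit as real `s` tends to `i/2 + 1` from above.
A pole of order `r` is the case `k = -r`. -/
def HasOrder {F : Type} [Field F] [NumberField F] (i : ℕ)
    (B : HeightOneSpectrum (𝓞 F) → ℂ[X]) (k : ℤ) : Prop :=
  ∃ c : ℂ, c ≠ 0 ∧
    Tendsto (fun ε : ℝ => (ε : ℂ) ^ (-k) * LFun B ((i : ℂ) / 2 + 1 + ε)) (𝓝[>] 0) (𝓝 c)

theorem tendsto_size {F : Type} [Field F] [NumberField F] {i : ℕ}
    {B : HeightOneSpectrum (𝓞 F) → ℂ[X]} {k : ℤ} (h : HasOrder i B k) :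
    Tendsto (size i B) (𝓝[>] 0) (𝓝 (-(k : ℝ))) := by
  obtain ⟨c, hc, hlim⟩ := h
  have hn : Tendsto (fun ε : ℝ => ‖(ε : ℂ) ^ (-k) * LFun B ((i : ℂ) / 2 + 1 + ε)‖) (𝓝[>] 0)
      (𝓝 ‖c‖) := hlim.norm
  have hc' : ‖c‖ ≠ 0 := norm_ne_zero_iff.2 hc
  have hlog := (Real.continuousAt_log hc').tendsto.comp hn
  have hinf : Tendsto (fun ε : ℝ => Real.log (1 / ε)) (𝓝[>] 0) atTop := by
    have h0 : Tendsto (fun ε : ℝ => 1 / ε) (𝓝[>] 0) atTop := by
      simp only [one_div]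
      exact tendsto_inv_nhdsGT_zero
    exact Real.tendsto_log_atTop.comp h0
  have h1 := hlog.div_atTop hinf
  have h2 : Tendsto (fun ε : ℝ => Real.log ‖(ε : ℂ) ^ (-k) * LFun B ((i : ℂ) / 2 + 1 + ε)‖ /
      Real.log (1 / ε) - k) (𝓝[>] 0) (𝓝 (-(k : ℝ))) := by
    have := h1.sub_const (k : ℝ)
    rw [zero_sub] at this
    exact this
  refine h2.congr' ?_
  have hne : ∀ᶠ ε : ℝ in 𝓝[>] 0,
      (ε : ℂ) ^ (-k) * LFun B ((i : ℂ) / 2 + 1 + ε) ≠ 0 := hlim.eventually_ne hc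
  filter_upwards [hne, self_mem_nhdsWithin, hinf.eventually (Filter.eventually_gt_atTop 0)]
    with ε h3 h4 h5
  have h4' : (0 : ℝ) < ε := h4
  have h6 : LFun B ((i : ℂ) / 2 + 1 + ε) ≠ 0 := right_ne_zero_of_mul h3
  have h7 : Real.log ‖(ε : ℂ) ^ (-k) * LFun B ((i : ℂ) / 2 + 1 + ε)‖ =
      k * Real.log (1 / ε) + Real.log ‖LFun B ((i : ℂ) / 2 + 1 + ε)‖ := by
    rw [norm_mul, norm_zpow, Complex.norm_real, Real.norm_of_nonneg h4'.le,
      Real.log_mul (zpow_ne_zero _ h4'.ne') (norm_ne_zero_iff.2 h6), Real.log_zpow, one_div,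
      Real.log_inv]
    push_cast
    ring
  rw [h7]
  unfold size
  field_simp
  ring

end Pool.Agent.Y149.Ord
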